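import Mathlib
import Pool.Agent.P.MP_cd59f5_co.Core

/-!
The realizability preorder on the perfect matchings of the labelled complete graph is
antisymmetric.  The vertex set `[n]` is `Fin n` with its usual order.
-/

set_option autoImplicit false

namespace Pool.Agent.Results.MP_cd59f5_co.Antisymm

/-- `R(M)`: the sequences `d₁ ≥ … ≥ dₙ ≥ 1` for which some simple graph `G` on `[n]` has
`deg_G i = d i` for all `i` and contains all edges of `M`. -/
def realizers {n : ℕ} (M : (⊤ : SimpleGraph (Fin n)).Subgraph) : Set (Fin n → ℕ) :=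
  {d | Antitone d ∧ (∀ i, 1 ≤ d i) ∧
    ∃ G : SimpleGraph (Fin n), (∀ i, (G.neighborSet i).ncard = d i) ∧ M.edgeSet ⊆ G.edgeSet}

open Pool.Agent.P.MP_cd59f5_co in
theorem result (n : ℕ) (M N : (⊤ : SimpleGraph (Fin n)).Subgraph)
    (hM : M.IsPerfectMatching) (hN : N.IsPerfectMatching)
    (hMN : realizers N ⊆ realizers M) (hNM : realizers M ⊆ realizers N) : M = N := by
  have inv : ∀ K : (⊤ : SimpleGraph (Fin n)).Subgraph, K.IsPerfectMatching →
      ∃ k : Fin n → Fin n, (∀ x, k (k x) = x) ∧ (∀ x, k x ≠ x) ∧ ∀ x y, K.Adj x y ↔ y = k x := by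
    intro K hK
    choose k hk hk' using SimpleGraph.Subgraph.isPerfectMatching_iff.mp hK
    exact ⟨k, fun x => (hk' (k x) x (hk x).symm).symm, fun x => (hk x).ne.symm,
      fun x y => ⟨hk' x y, fun h => h ▸ hk x⟩⟩
  have key : ∀ (K L : (⊤ : SimpleGraph (Fin n)).Subgraph) (k l : Fin n → Fin n),
      (∀ x, k (k x) = x) → (∀ x, k x ≠ x) → (∀ x y, K.Adj x y ↔ y = k x) →
      (∀ x, l (l x) = x) → (∀ x, l x ≠ x) → (∀ x y, L.Adj x y ↔ y = l x) →
      realizers L ⊆ realizers K → ∀ i, (∀ x < i, k x = l x) → ¬ k i < l i := by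
    intro K L k l hk hk' hK hl hl' hL hsub i hi hlt
    obtain ⟨G, hG, hanti, hsep⟩ := main k l hk hk' hl hl' i hi hlt
    have hmem : (fun u => (nb G u).card) ∈ realizers L := by
      refine ⟨hanti, fun u => Finset.card_pos.mpr ⟨l u, (mem_nb G u _).mpr (hG u)⟩, G,
        fun u => ncard_eq G u, ?_⟩
      intro e he
      induction e using Sym2.ind with
      | _ x y =>
        rw [SimpleGraph.Subgraph.mem_edgeSet, hL] at he
        rw [SimpleGraph.mem_edgeSet, he]
        exact hG x
    obtain ⟨-, -, G', hG', hsub'⟩ := hsub hmem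
    refine hsep G' (fun u => ?_) fun u => ?_
    · rw [← SimpleGraph.mem_edgeSet]
      apply hsub'
      rw [SimpleGraph.Subgraph.mem_edgeSet, hK]
    · rw [← ncard_eq, hG' u]
  obtain ⟨m, hm, hm', hMa⟩ := inv M hM
  obtain ⟨v, hv, hv', hNa⟩ := inv N hN
  have heq : ∀ i, m i = v i := by
    intro i
    induction i using WellFoundedLT.induction with
    | _ i ih =>
      exact le_antisymm
        (not_lt.mp (key N M v m hv hv' hNa hm hm' hMa hNM i fun x hx => (ih x hx).symm))
        (not_lt.mp (key M N m v hm hm' hMa hv hv' hNa hMN i ih))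
  ext x y
  · exact ⟨fun _ => hN.2 x, fun _ => hM.2 x⟩
  · rw [hMa, hNa, heq]

end Pool.Agent.Results.MP_cd59f5_co.Antisymm
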